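import Pool.Agent.K7.H8.TH.Thm

/-!
# MP_16ef92_ag: the density of the Tate classes among the generalised Tate classes on powers

Let `X` be a smooth projective variety over the algebraic closure of a finite field. A generalised
Tate class of degree `2 j` is an element of the generalised eigenspace for the eigenvalue `q ^ j` of
the Frobenius endomorphism over some finite field with `q` elements, and a Tate class is an
eigenvector. Let `g n` and `t n` be the dimensions of the spaces of the generalised Tate classes and
of the Tate classes of all degrees on the product of `n + 1` copies of `X`.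

If the Frobenius endomorphism acts semisimply on the cohomology of `X`, the eigenvalues `q ^ j` are
semisimple on all powers of `X`, over all finite fields, in all degrees `2 j`. Otherwise, the
quotient `t n / g n` has the exact order of magnitude `(n + 1) ^ (-1 / 2)`. In particular, if the
quotient `t n / g n` is not `O (n ^ (-1 / 2))`, then the Frobenius endomorphism is semisimple on the
cohomology of `X`, and all generalised Tate classes on all powers of `X` are Tate classes.

No standard conjecture and no polarization is used. The proof: the unipotent parts of the Frobenius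
endomorphisms on the powers are compared with the representations of `sl(2)` on the tensor powers of
`H(X)`, and the weights are counted by the Fourier transform.
-/

set_option autoImplicit false

open CategoryTheory AlgebraicGeometry

universe u v

namespace Pool.Agent.Results.MP_16ef92_ag.DensityOfTateClasses

open Pool.Agent.H914 Pool.Agent.H914.VarClass Pool.Agent.H914.VarClass.Obj
  Pool.Agent.H914.WeilCohomology Pool.Agent.W534 Pool.Agent.Y133.Half

/-- Either the Frobenius endomorphism is semisimple on `H(X)`, and then on all powers of `X`, over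
all finite fields and for all `j`, the generalised eigenspace for `q ^ j` in degree `2 j` consists
of eigenvectors; or the Tate classes on `X ^ (n + 1)` are a proportion of exact order
`(n + 1) ^ (-1 / 2)` of the generalised Tate classes. -/
theorem result {k : Type u} [Field k] {𝒱 : VarClass k} {ops : CycleOps 𝒱}
    (W : WeilCohomology.{u, v} ops) [IsAlgClosed W.K] {p : ℕ} (Φ : FrobSystem W p) (X : 𝒱.Obj) :
    -- the eigenvalues `q ^ j` are semisimple on all powers
    (FrobSemisimple Φ X ∧ ∀ n s j, 0 < s → ∀ c ∈ genTate Φ (pw X n) s j,
      W.map (W534.iter (Φ.Fr (pw X n)) s) c = ((card Φ (pw X n) s : W.K) ^ j) • c) ∨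
    -- or the proportion of the Tate classes is of the order of magnitude `(n + 1) ^ (-1 / 2)`
    ∃ (g t : ℕ → ℕ) (c C : ℝ), 0 < c ∧
      (∀ n, g n = ∑ j ∈ Finset.range ((pw X n).dim + 1),
        dimOf W {x : W.H (pw X n) | ∃ s, 0 < s ∧ x ∈ genTate Φ (pw X n) s j}) ∧
      (∀ n, t n = ∑ j ∈ Finset.range ((pw X n).dim + 1),
        dimOf W {x : W.H (pw X n) | IsTate Φ (pw X n) j x}) ∧
      ∀ n, 0 < g n ∧ c / √(n + 1 : ℝ) * g n ≤ t n ∧ (t n : ℝ) ≤ C / √(n + 1 : ℝ) * g n := by
  rcases Pool.Agent.K7.H8.TH.main_sums' Φ X with h | ⟨c, C, hc, -, h⟩
  · exact Or.inl ⟨h, fun n s j _ x hx => Pool.Agent.K7.H8.TH.ss_pw h n hx⟩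
  · refine Or.inr ⟨_, _, c, C, hc, fun _ => rfl, fun _ => rfl, fun n => ?_⟩
    obtain ⟨h0, h1, h2, h3, h4⟩ := h n
    have hs : 0 < √(n + 1 : ℝ) := Real.sqrt_pos.2 (by positivity)
    push_cast
    refine ⟨h0, ?_, ?_⟩
    · rw [div_mul_eq_mul_div, div_le_iff₀ hs]
      exact h3
    · rw [div_mul_eq_mul_div, le_div_iff₀ hs]
      exact h4

end Pool.Agent.Results.MP_16ef92_ag.DensityOfTateClasses
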