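import Pool.Agent.K7.H8.Gap.Main

/-!
# MP_16ef92_ag: the defect of semisimplicity of the Frobenius endomorphism is even

Let `X` be a smooth projective variety over the field with `q` elements and `i ≤ dim X`.  If `z` is
the order of the pole of the zeta function of `X` at `i` (the dimension of the generalised eigenspace
of Frobenius for `q ^ i` on `H^(2 i)(X)`), and `t` is the dimension of the space of Tate classes
(the eigenspace), then `z - t` is even.  More generally `z` minus the dimension of the kernel of
`(F - q ^ i) ^ r` is even for all odd `r`, that is, for every even number `m` the number of the Jordan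
blocks of size `m` for the eigenvalue `q ^ i` on `H^(2 i)(X)` is even.  In particular the eigenvalue
`1` of Frobenius on `H_(2 (dim X - i))(X, ℚ_ℓ(dim X - i))` cannot have exactly one Jordan block of
size two and otherwise blocks of size one.

The Frobenius endomorphism preserves, up to scalars, the symmetric form `x · y · D ^ (dim X - 2 i)`;
by the Cayley transform the odd powers of its nilpotent part are given by skew-symmetric forms.
-/

set_option autoImplicit false

open CategoryTheory AlgebraicGeometry

universe u v

namespace Pool.Agent.Results.MP_16ef92_ag.EvenDefect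

open Pool.Agent.H914 Pool.Agent.H914.VarClass Pool.Agent.H914.VarClass.Obj
  Pool.Agent.H914.WeilCohomology Pool.Agent.W534 Pool.Agent.K7.H8.Gap

/-- Let `D` be a divisor on `X` for which the hard Lefschetz theorem holds, whose class is multiplied
by `q` by the Frobenius endomorphism `F` over the field with `q = card Φ X s` elements.  Then for
`i ≤ dim X` the order of the pole of the zeta function at `i` is, for all odd `r`, congruent modulo
two to the dimension of the space of the classes of degree `2 i` killed by `(F - q ^ i) ^ r`. -/
theorem result {k : Type u} [Field k] {𝒱 : VarClass k} {ops : CycleOps 𝒱}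
    (W : WeilCohomology.{u, v} ops) (σ : W.K →+* ℂ) (p : ℕ) (hp : p.Prime)
    (Φ : FrobSystem W p) (X : 𝒱.Obj) (hRH : RiemannHyp Φ σ X) (D : X.Cycles) (hD : X.IsCyc 1 D)
    (hHL : HardLef W X D) (s : ℕ) (hs : 0 < s) (hDs : FixedBy Φ X D s) (i : ℕ)
    (hi : i ≤ X.dim) (r : ℕ) (hr : Odd r) :
    ∃ a : ℕ, meromorphicOrderAt (zetaFn Φ σ X s) (i : ℂ) =
      ((-((Module.finrank W.K (tatePow Φ X s i r) + 2 * a : ℕ) : ℤ) : ℤ) : WithTop ℤ) :=
  parity Φ hp.one_lt σ hRH hD hHL hi hs hDs hr

end Pool.Agent.Results.MP_16ef92_ag.EvenDefect
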