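import Mathlib
import Pool.Agent.K7.H59.PD.Poly

/-!
# Semisimplicity for the products of abelian varieties of prime dimension with arbitrary varieties

Let `A i` (`i` in a finite set `I`) be simple abelian varieties, not supersingular, over the field
with `q` elements, whose characteristic polynomials of Frobenius `f i` are irreducible, and let `r`
be smaller than all dimensions `g i`. We assume for each `i`:

* `g i = 1`, or
* `g i` is a prime number and the field generated by a root of `f i` contains no imaginary quadratic
  field, or
* some automorphism of `ℂ` exchanges one pair of complex conjugate roots of `f i` and fixes all the
  other roots,

and that the splitting fields of the `f i` are pairwise different. Let `E` be a number field whose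
Galois closure contains the splitting field of no `f i`.

Then for all `s > 0`, `Q = q ^ s`, all abelian varieties `A` over the field with `Q` elements which
are isogenous to products of powers of the `A i` and **all** varieties `U` over the field with `Q`
elements (singular, not proper) such that in each degree the eigenvalues of Frobenius on the
cohomology of degree `m` with compact supports of `U` and their conjugates generate a group of rank
at most `r` modulo the group of the numbers with a power in `E`: the eigenvalue `Q ^ i` of Frobenius
is semisimple on the cohomology of degree `2 i` with compact supports of `A × U` for all `i`, if and
only if this is true for `U`. Since the homology is dual to the cohomology with compact supports,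
this is: `SS_i (A × U)` holds for all `i` if and only if `SS_i (U)` holds for all `i`.

The Tate classes on `A × U` are the combinations of the products of divisor classes on `A` with the
Tate classes on `U`.

The starting file `AbelianTimesAnyVariety` contains this for almost all families `f i`, without
any example; the families here are explicit (there are no conditions on the slopes and on the
relations between the fields for different `i`, except that they are different).

The idea of the proof: the odd functions on the set of roots of `f i` (with `f(z̄) = - f(z)`) form an
irreducible representation of the group of automorphisms of `ℂ` over `ℚ`: for `g i` prime this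
follows from the irreducibility of the cyclotomic polynomial of prime order, and from the fact that
stable subspaces of dimension or codimension one give an imaginary quadratic subfield. The relations
modulo the eigenvalues of `U` form a stable subspace of the odd functions on the union of the sets of
roots, and if this is not zero it contains all odd functions on one of them, since the
representations for different `i` have different kernels. As `r < g i`, there is then a relation
modulo `E`, and comparing it with its conjugates under the automorphisms over the Galois closure of
`E` one obtains that all these fix the roots of `f i`.
-/

set_option autoImplicit false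

namespace Pool.Agent.Results.MP_16ef92_ag.PrimeDimensionTimesAnyVariety

open Polynomial ComplexConjugate Pool.Agent.TH44.SS Pool.Agent.W484.TB Pool.Agent.K7.H59.PD

/-- `complexRoots f` is the set of complex roots. `IsWeil q g f`: `f` is monic, integral and irreducible
of degree `2 g`, the roots have absolute value `√q` and are not `√q` times a root of unity. -/
theorem result {I : Type} [Finite I] {q : ℕ} (hq : 0 < q) (g : I → ℕ) (f : I → ℤ[X])
    (hf : ∀ i, IsWeil q (g i) (f i))
    (hP : ∀ i, g i = 1 ∨
      ((g i).Prime ∧ ∀ x ∈ complexRoots (f i), ∀ z ∈ IntermediateField.adjoin ℚ {x},
        ∀ d : ℚ, d < 0 → z ^ 2 ≠ d) ∨
      ∃ x ∈ complexRoots (f i), ∃ σ : ℂ ≃+* ℂ, σ x = conj x ∧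
        ∀ y ∈ complexRoots (f i), y ≠ x → y ≠ conj x → σ y = y)
    (hK : ∀ i j, i ≠ j → IntermediateField.adjoin ℚ (complexRoots (f i)) ≠
      IntermediateField.adjoin ℚ (complexRoots (f j)))
    (E : IntermediateField ℚ ℂ) [FiniteDimensional ℚ E]
    (hE : ∀ i, ¬ IntermediateField.adjoin ℚ (complexRoots (f i)) ≤
      IntermediateField.normalClosure ℚ E ℂ)
    (r : ℕ) (hr : ∀ i, r < g i) :
    SemisimpleIff E q r f ∧ TateForRankOver E q r f :=
  main hq hf hP hK E
    (fun i h => hE i (IntermediateField.adjoin_le_iff.2 h)) r hr

end Pool.Agent.Results.MP_16ef92_ag.PrimeDimensionTimesAnyVariety
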