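import Pool.Agent.K7.H8.Gap.Main

/-!
# MP_16ef92_ag: semisimplicity if at most two algebraic classes are missing

Let `X` be a smooth projective variety over the algebraic closure of a finite field and
`i ≤ dim X`.  Let `z` be the order of the pole at `i` of the zeta function of `X` over the sufficiently
large finite fields, and `ρ` the rank of the group of the cycles of codimension `i` modulo numerical
equivalence.  Then `ρ ≤ z`, and `ρ = z` is Tate's conjecture, which implies the semisimplicity of the
eigenvalue `q ^ i` on `H^(2 i)(X)`.  Here we show that `z ≤ ρ + 2` is sufficient: if the eigenvalue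
is not semisimple over some finite field, then at least three independent algebraic classes are
missing.
-/

set_option autoImplicit false

open CategoryTheory AlgebraicGeometry

universe u v

namespace Pool.Agent.Results.MP_16ef92_ag.ThreeMissingClasses

open Pool.Agent.H914 Pool.Agent.H914.VarClass Pool.Agent.H914.VarClass.Obj
  Pool.Agent.H914.WeilCohomology Pool.Agent.W534 Pool.Agent.K7.H8.Gap

/-- If the order `z` of the pole at `i` of the zeta function of `X` over the sufficiently large
finite fields is at most the rank of the cycles of codimension `i` modulo numerical equivalence plus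
two, then over all finite fields the eigenvalue `q ^ i` of Frobenius on `H^(2 i)(X)` is semisimple. -/
theorem result {k : Type u} [Field k] {𝒱 : VarClass k} {ops : CycleOps 𝒱}
    (W : WeilCohomology.{u, v} ops) (σ : W.K →+* ℂ) (p : ℕ) (hp : p.Prime)
    (Φ : FrobSystem W p) (X : 𝒱.Obj) (hRH : RiemannHyp Φ σ X) (D : X.Cycles) (hD : X.IsCyc 1 D)
    (hHL : HardLef W X D) (i : ℕ) (hi : i ≤ X.dim) (z : ℕ)
    (hz : Pool.Agent.Y163.PoleOrderIs Φ σ X i z) (h : z ≤ numRank ops X i + 2) :
    ∀ s, 0 < s → SemisimpleAt Φ X s i :=
  fun _ hs => gap Φ hp.one_lt σ hRH hD hHL hi hz h hs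

end Pool.Agent.Results.MP_16ef92_ag.ThreeMissingClasses
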